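import Pool.Agent.H337Z.Heis
import Pool.Agent.H567Z.TightMain

set_option autoImplicit false

namespace Pool.Agent.Results.MP_335999_gt.FullAnswer

open Topology

universe u

/-- Abelian case: locally minimal and countably tight implies metrizable, Frechet-Urysohn and
sequential. General case: a minimal group of countable tightness with none of these properties. -/
theorem result :
    (∀ (G : Type u) [CommGroup G] [t : TopologicalSpace G] [IsTopologicalGroup G] [T2Space G],
      (∃ V ∈ 𝓝 (1 : G), ∀ σ : TopologicalSpace G, @IsTopologicalGroup G σ _ → @T2Space G σ →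
        t ≤ σ → V ∈ @nhds G σ 1 → σ = t) →
      (∀ A : Set G, ∀ x ∈ closure A, ∃ B ⊆ A, B.Countable ∧ x ∈ closure B) →
      TopologicalSpace.MetrizableSpace G ∧ FrechetUrysohnSpace G ∧ SequentialSpace G) ∧
    ∃ (G : Type) (_ : Group G) (t : TopologicalSpace G), IsTopologicalGroup G ∧ T2Space G ∧
      (∃ V ∈ 𝓝 (1 : G), ∀ σ : TopologicalSpace G, @IsTopologicalGroup G σ _ → @T2Space G σ →
        t ≤ σ → V ∈ @nhds G σ 1 → σ = t) ∧
      (∀ A : Set G, ∀ x ∈ closure A, ∃ B ⊆ A, B.Countable ∧ x ∈ closure B) ∧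
      ¬ TopologicalSpace.MetrizableSpace G ∧ ¬ FrechetUrysohnSpace G ∧ ¬ SequentialSpace G := by
  refine ⟨fun G _ t _ _ ⟨V, hV, hmin⟩ ht => ?_, H337Z.Heis.H, inferInstance, H337Z.Heis.tau,
    inferInstance, inferInstance,
    ⟨Set.univ, Filter.univ_mem, fun σ h1 h2 h3 _ => H337Z.Heis.minimal σ h1 h2 h3⟩,
    H337Z.Heis.tight, fun _ => H337Z.Heis.not_seq inferInstance,
    fun _ => H337Z.Heis.not_seq inferInstance, H337Z.Heis.not_seq⟩
  have := H567Z.TM.metrizable_of_tight hV hmin ht
  exact ⟨this, inferInstance, inferInstance⟩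

end Pool.Agent.Results.MP_335999_gt.FullAnswer
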